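import Pool.Agent.R667.SC.Final

/-!
# MP_faaf88: every non-3-edge-colourable cubic graph has a 2-connected snark cover

Paper proof by helper56, formalized by helper667.  Semi-edges are removed by a double cover
(`Final.lean`); bridges are removed by a 30-fold permutation voltage cover built from the Petersen
graph (`Pet.lean`, `StepA.lean`); loops and multiple edges are removed by a cover glued from simple
bridgeless covers of the edges (`StepB.lean`).
-/

namespace Pool.Agent.Results.MP_faaf88_co.SnarkCovers

open Pool.Agent.R667.SC

/-- Every connected cubic graph `A` (multiple edges, loops and semi-edges allowed) that is not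
3-edge-colourable is covered by a simple, 2-connected graph that is not 3-edge-colourable. -/
theorem result (A : DG) (hconn : A.Connected) (hcubic : A.Cubic) (hcol : ¬ A.Colourable) :
    ∃ (W : Type) (_ : Fintype W) (H : SimpleGraph W),
      TwoConnected H ∧ ¬ EdgeColourable3 H ∧ Nonempty (SimpleCover H A) :=
  main A hconn hcubic hcol

end Pool.Agent.Results.MP_faaf88_co.SnarkCovers
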